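import Pool.Agent.K.MP_8e1b3573_nt.C0

set_option autoImplicit false

namespace Pool.Agent.Results.MP_8e1b3573_nt.LargePrimeFactor

open Pool.Agent.P.MP_8e1b3573_nt

/-- For every `K ≥ 1`, asymptotically at least a proportion `K / (K + 1)` of the primes `p` have
a Wilson quotient with a prime factor larger than `p + p / (log p) ^ (5 K + 10)`. -/
theorem result (K : ℕ) (hK : 1 ≤ K) (δ : ℝ) (hδ : 0 < δ) : ∀ᶠ X : ℕ in Filter.atTop,
    ((K : ℝ) / (K + 1) - δ) * (Nat.primeCounting X : ℝ) ≤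
      (Set.ncard {p : ℕ | p ≤ X ∧ p.Prime ∧ ∃ q : ℕ, q.Prime ∧ q ∣ ((p - 1).factorial + 1) / p ∧
        (p : ℝ) + (p : ℝ) / Real.log p ^ (5 * K + 10) < (q : ℝ)} : ℝ) := by
  classical
  filter_upwards [main K hK δ hδ] with X h
  obtain ⟨T, hT⟩ : ∃ T, T = (Finset.range (X + 1)).filter Nat.Prime := ⟨_, rfl⟩
  have hTc : T.card = Nat.primeCounting X := by
    rw [hT, Nat.primeCounting, Nat.primeCounting', Nat.count_eq_card_filter_range]
  let G : ℕ → Prop := fun p => ∃ q : ℕ, q.Prime ∧ q ∣ ((p - 1).factorial + 1) / p ∧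
    (p : ℝ) + (p : ℝ) / Real.log p ^ (5 * K + 10) < (q : ℝ)
  have e : {p : ℕ | p ≤ X ∧ p.Prime ∧ ∃ q : ℕ, q.Prime ∧ q ∣ ((p - 1).factorial + 1) / p ∧
        (p : ℝ) + (p : ℝ) / Real.log p ^ (5 * K + 10) < (q : ℝ)} = ↑(T.filter G) := by
    ext p
    simp only [hT, G, Set.mem_ofPred_eq, Finset.coe_filter, Finset.mem_filter, Finset.mem_range,
      Nat.lt_succ_iff, and_assoc]
  rw [e, Set.ncard_coe_finset]
  have h1 := Finset.card_filter_add_card_filter_not (s := T) G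
  have h2 := Finset.card_le_card (s := T.filter fun p => ¬ G p)
    (t := (Finset.Icc 1 X).filter fun m : ℕ => ∀ q : ℕ, q.Prime → q ∣ (m - 1).factorial + 1 →
      (q : ℝ) ≤ m + m / Real.log m ^ (5 * K + 10)) (by
    intro p hp
    obtain ⟨hp1, hp2⟩ := Finset.mem_filter.1 hp
    rw [hT] at hp1
    obtain ⟨hp3, hp4⟩ := Finset.mem_filter.1 hp1
    refine Finset.mem_filter.2 ⟨Finset.mem_Icc.2 ⟨hp4.one_le, ?_⟩, fun q hq hd => ?_⟩
    · exact Nat.lt_succ_iff.1 (Finset.mem_range.1 hp3)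
    · have hw : p ∣ (p - 1).factorial + 1 := by
        have := (Nat.prime_iff_fac_equiv_neg_one hp4.ne_one).1 hp4
        rw [← ZMod.natCast_eq_zero_iff]
        push_cast
        rw [this, neg_add_cancel]
      rw [← Nat.mul_div_cancel' hw] at hd
      rcases (Nat.Prime.dvd_mul hq).1 hd with h3 | h3
      · rw [(Nat.prime_dvd_prime_iff_eq hq hp4).1 h3]
        have : 0 ≤ (p : ℝ) / Real.log p ^ (5 * K + 10) :=
          div_nonneg (Nat.cast_nonneg _) (pow_nonneg (Real.log_natCast_nonneg p) _)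
        linarith
      · by_contra hc
        exact hp2 ⟨q, hq, h3, not_le.1 hc⟩)
  have h3 : ((T.filter G).card : ℝ) + (T.filter fun p => ¬ G p).card = Nat.primeCounting X := by
    rw [← hTc]; exact_mod_cast h1
  have h4 := (Nat.cast_le (α := ℝ)).2 h2
  have hK0 : (0 : ℝ) < K + 1 := by positivity
  have e2 : (K : ℝ) / (K + 1) = 1 - 1 / (K + 1) := by field_simp; ring
  rw [e2]
  linarith

end Pool.Agent.Results.MP_8e1b3573_nt.LargePrimeFactor
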